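import Pool.Agent.H376Z.QB.Defs
import Pool.Agent.H376Z.QB.Theta

/-!
# Finite semigroups containing `L` or `R` have no finite basis of quasi-identities

Let `S` be finite, `m = |S| + 1`, and let `T` be the set of the edges and vertices of the graph made
of `m` paths of length `2 N` from `x` to `y`; the edges number `k` and `k + N` of a path are
parallel. Sending `x` and `y` to the same vertex, the graph maps to a cube, so every edge and vertex
has a sign vector. Vertices are left zeros, and an edge `a` times `t` is `a` or the end point of `a`
given by the sign of `t` at the class of `a`. A homomorphism to `S` that identifies two non-parallel
edges collapses both, so it collapses a whole path and identifies `x` and `y`. On the other hand a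
subsemigroup that misses an edge of every path embeds in a power of `L`.
-/

set_option autoImplicit false

namespace Pool.Agent.Results.MP_81d707_al.AllFinite

open Pool.Agent.H376Z.QB

universe u

/-- A finite semigroup that contains `L` or `R` as a subsemigroup has no finite basis for its
quasi-identities. -/
theorem result (S : Type u) [Semigroup S] [Finite S]
    (h : (∃ ι : L →ₙ* S, Function.Injective ι) ∨ (∃ ι : R →ₙ* S, Function.Injective ι)) :
    ¬ FinitelyQBased S :=
  Pool.Agent.H376Z.QB.main S h

end Pool.Agent.Results.MP_81d707_al.AllFinite
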